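import Pool.Agent.H217_D3.HjFinal

/-!
# The restricted density polynomial Hales-Jewett conjecture for depth three over parities

A cell is a family of subsets `A` of `[N]^d` given by prescribed parities of `|A ∩ X_1|, ..., |A ∩ X_k|`,
where `X_1, ..., X_k ⊆ [N]^d` are arbitrary. We consider the families `S` which are a union of `m` families,
each of which is given by any number of conditions `A ∉ B`, and by `q` conditions
`A ∈ B_1 ∪ B_2 ∪ ...` (any number of members), `B`, `B_i` cells. For `q = 0` these are the families decided
by a formula with an OR gate of fan-in `m` at the top, AND gates of any fan-in in the middle and OR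
gates of fan-in `k` at the bottom, with arbitrary parities of the bits of `A`, and their negations, as
inputs. We show that `S` is good if it has more than
`2 m 2^(N^d) 2^((q - N / (k (d + 1))) / 2^k)` members. So in every dimension `d` the conjecture holds for these
families with an exponentially small density, for fixed `k` and for all `m ≤ 2^(c N)`, `q ≤ c N`.

Proof. Some of the `m` families, `T`, has at least `|S| / m` members. If one of the cells `B` with
the condition `A ∉ B` is not empty, then `T` is denser by a factor `2^k / (2^k - 1)` on some other value of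
the parities which define `B`; iterate. After less than `2^k log₂ (2 m 2^(N^d) / |S|)` steps we are in an affine
subspace without such cells, and some affine subspace of codimension at most `k q` in it is contained in
`T`. Now apply the theorem of the starting file `CoordinatewiseOperations` to this affine subspace: affine
subspaces of codimension less than `N / (d + 1)` are good.
-/

set_option autoImplicit false

namespace Pool.Agent.Results.MP_90b327_co.ParityDepthThree

open Finset

/-- The family `S` of subsets of `[N]^d` is good: there are `A ∈ S` and a nonempty `γ ⊆ [N]` with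
`A ∩ γ^d = ∅` and `A ∪ γ^d ∈ S`. -/
def Good {d N : ℕ} (S : Finset (Finset (Fin d → Fin N))) : Prop :=
  ∃ A ∈ S, ∃ γ : Finset (Fin N), γ.Nonempty ∧
    Disjoint A (Fintype.piFinset (fun _ : Fin d => γ)) ∧
    A ∪ Fintype.piFinset (fun _ : Fin d => γ) ∈ S

/-- `B` is given by prescribed parities of the intersections with `k` sets. -/
def Cell {E : Type} [DecidableEq E] (k : ℕ) (B : Set (Finset E)) : Prop :=
  ∃ (X : Fin k → Finset E) (b : Fin k → ℕ), B = {A | ∀ i, (A ∩ X i).card % 2 = b i}

/-- `T` is given by any number of conditions `A ∉ B` and by `q` conditions `A ∈ B_1 ∪ B_2 ∪ ...`, with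
cells `B`, `B_i`. -/
def LocalFamily {E : Type} [DecidableEq E] (k q : ℕ) (T : Set (Finset E)) : Prop :=
  ∃ (𝒜 : Set (Set (Finset E))) (ℬ : Fin q → Set (Set (Finset E))), (∀ B ∈ 𝒜, Cell k B) ∧
    (∀ j, ∀ B ∈ ℬ j, Cell k B) ∧ T = {A | (∀ B ∈ 𝒜, A ∉ B) ∧ ∀ j, ∃ B ∈ ℬ j, A ∈ B}

/-- **Theorem.** Let `d ≥ 1`, `k ≥ 1`, and let the family `S` of subsets of `[N]^d` be a union of `m` local
families. If `S` is not good, then `|S| ≤ 2 m 2^(N^d) 2^((q - N / (k (d + 1))) / 2^k)`. -/
theorem result (d N k q m : ℕ) (hd : 1 ≤ d) (hk : 1 ≤ k) (S : Finset (Finset (Fin d → Fin N)))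
    (T : Fin m → Set (Finset (Fin d → Fin N))) (hT : ∀ i, LocalFamily k q (T i))
    (hS : ∀ A, A ∈ S ↔ ∃ i, A ∈ T i) (hg : ¬ Good S) :
    (S.card : ℝ) ≤ 2 * m * (2 : ℝ) ^ (N ^ d) *
      (2 : ℝ) ^ (((q : ℝ) - N / (k * (d + 1))) / 2 ^ k) :=
  Pool.Agent.H217_D3.hj_deep hd hk S T hT hS hg

end Pool.Agent.Results.MP_90b327_co.ParityDepthThree
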